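import Pool.Agent.Gab6_h87.Ax
import Pool.Agent.Gabow87.GR.Five
import Pool.Agent.Gabow87.Main6
import Pool.Agent.Near48.Blocks

/-!
# From the orderings with five good levels to a chain in rank six
-/

set_option autoImplicit false

namespace Pool.Agent.Gab6_h87

open Pool.Agent.Gabow87

section Conv

variable {α : Type*} {r : ℕ} {M : Matroid α} {b b' : Fin r → α}

/-- a set of `r` indices whose image is a basis -/
theorem bp_of_image (hb : Function.Injective b) (hB : M.IsBase (Set.range b))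
    {S : Finset (Idx r)} (hS : S.card = r)
    (h : M.IsBase (Sum.elim b b' '' (S : Set (Idx r)))) : BP M (Sum.elim b b') S := by
  refine ⟨?_, h⟩
  have h1 := h.encard_eq_encard_of_isBase hB
  have h2 : (Set.range b).encard = r := by
    rw [← Set.image_univ, hb.encard_image, Set.encard_univ]
    simp
  rw [h2] at h1
  refine Set.injOn_of_ncard_image_eq ?_ (Finset.finite_toSet S)
  rw [Set.ncard_coe_finset, hS, Set.ncard_def, h1]
  rfl

theorem card_firstL (σ : Equiv.Perm (Fin r)) {k : ℕ} (hk : k ≤ r) : (firstL σ k).card = k := by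
  rw [firstL, Finset.card_map, Fin.card_filter_val_lt]
  omega

theorem card_firstR (σ : Equiv.Perm (Fin r)) {k : ℕ} (hk : k ≤ r) : (firstR σ k).card = k := by
  rw [firstR, Finset.card_map, Fin.card_filter_val_lt]
  omega

theorem firstL_sub (σ : Equiv.Perm (Fin r)) (k : ℕ) : firstL σ k ⊆ B₀ r := by
  intro t ht
  obtain ⟨j, -, rfl⟩ := (mem_firstL _ _ _).mp ht
  exact (mem_B₀ _).mpr ⟨_, rfl⟩

theorem firstR_sub (σ : Equiv.Perm (Fin r)) (k : ℕ) : firstR σ k ⊆ B₁ r := by
  intro t ht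
  obtain ⟨j, -, rfl⟩ := (mem_firstR _ _ _).mp ht
  exact (mem_B₁ _).mpr ⟨_, rfl⟩

/-- a block which starts in the first basis -/
theorem bp_lt (hb : Function.Injective b) (hB : M.IsBase (Set.range b))
    (σ σ' : Equiv.Perm (Fin r)) (i : Fin (r + r)) (hi : i.val < r)
    (h : M.IsBase (block (b ∘ σ) (b' ∘ σ') i)) :
    BP M (Sum.elim b b') (B₀ r \ firstL σ i.val ∪ firstR σ' i.val) := by
  refine bp_of_image hb hB ?_ ?_
  · rw [Finset.card_union_of_disjoint, Finset.card_sdiff_of_subset (firstL_sub _ _),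
      card_firstL _ hi.le, card_firstR _ hi.le, card_B₀]
    · omega
    · exact (disj_B r).mono Finset.sdiff_subset (firstR_sub _ _)
  · convert h using 1
    ext x
    rw [mem_block_lt _ _ _ hi]
    simp only [Set.mem_image, Finset.mem_coe, Finset.mem_union, Finset.mem_sdiff, mem_B₀,
      mem_firstL, mem_firstR]
    constructor
    · rintro ⟨t, ⟨⟨j, rfl⟩, hj⟩ | ⟨j, hj, rfl⟩, rfl⟩
      · left
        refine ⟨σ.symm j, ?_, by simp⟩
        by_contra hlt
        exact hj ⟨σ.symm j, by omega, by simp⟩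
      · right
        exact ⟨j, by omega, rfl⟩
    · rintro (⟨j, hj, rfl⟩ | ⟨j, hj, rfl⟩)
      · refine ⟨Sum.inl (σ j), Or.inl ⟨⟨_, rfl⟩, ?_⟩, rfl⟩
        rintro ⟨j', hj', h⟩
        have : j = j' := by simpa using h
        subst this; omega
      · exact ⟨Sum.inr (σ' j), Or.inr ⟨j, by omega, rfl⟩, rfl⟩

/-- a block which starts in the second basis -/
theorem bp_ge (hb : Function.Injective b) (hB : M.IsBase (Set.range b))
    (σ σ' : Equiv.Perm (Fin r)) (i : Fin (r + r)) (hi : r ≤ i.val)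
    (h : M.IsBase (block (b ∘ σ) (b' ∘ σ') i)) :
    BP M (Sum.elim b b') (B₁ r \ firstR σ' (i.val - r) ∪ firstL σ (i.val - r)) := by
  have hi2 := i.isLt
  refine bp_of_image hb hB ?_ ?_
  · rw [Finset.card_union_of_disjoint, Finset.card_sdiff_of_subset (firstR_sub _ _),
      card_firstL _ (by omega), card_firstR _ (by omega), card_B₁]
    · omega
    · exact (disj_B r).symm.mono Finset.sdiff_subset (firstL_sub _ _)
  · convert h using 1
    ext x
    rw [mem_block_ge _ _ _ hi]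
    simp only [Set.mem_image, Finset.mem_coe, Finset.mem_union, Finset.mem_sdiff, mem_B₁,
      mem_firstL, mem_firstR]
    constructor
    · rintro ⟨t, ⟨⟨j, rfl⟩, hj⟩ | ⟨j, hj, rfl⟩, rfl⟩
      · left
        refine ⟨σ'.symm j, ?_, by simp⟩
        by_contra hlt
        exact hj ⟨σ'.symm j, by omega, by simp⟩
      · right
        exact ⟨j, by omega, rfl⟩
    · rintro (⟨j, hj, rfl⟩ | ⟨j, hj, rfl⟩)
      · refine ⟨Sum.inr (σ' j), Or.inl ⟨⟨_, rfl⟩, ?_⟩, rfl⟩
        rintro ⟨j', hj', h⟩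
        have : j = j' := by simpa using h
        subst this; omega
      · exact ⟨Sum.inl (σ j), Or.inr ⟨j, by omega, rfl⟩, rfl⟩

end Conv

/-- names of the terms of the two bases -/
def nm {r : ℕ} (hr : 0 < r) (σ σ' : Equiv.Perm (Fin r)) (n : ℕ) : Idx r :=
  if n < r then Sum.inl (σ ⟨n % r, Nat.mod_lt _ hr⟩) else Sum.inr (σ' ⟨(n - r) % r, Nat.mod_lt _ hr⟩)

theorem nm_left {r : ℕ} (hr : 0 < r) (σ σ' : Equiv.Perm (Fin r)) {n : ℕ} (hn : n < r) :
    nm hr σ σ' n = Sum.inl (σ ⟨n, hn⟩) := by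
  have e : (⟨n % r, Nat.mod_lt _ hr⟩ : Fin r) = ⟨n, hn⟩ := Fin.ext (Nat.mod_eq_of_lt hn)
  rw [nm, if_pos hn, e]

theorem nm_right {r : ℕ} (hr : 0 < r) (σ σ' : Equiv.Perm (Fin r)) {n : ℕ} (hn : n < r) :
    nm hr σ σ' (r + n) = Sum.inr (σ' ⟨n, hn⟩) := by
  have e : (⟨(r + n - r) % r, Nat.mod_lt _ hr⟩ : Fin r) = ⟨n, hn⟩ :=
    Fin.ext (by change (r + n - r) % r = n; rw [Nat.add_sub_cancel_left, Nat.mod_eq_of_lt hn])
  rw [nm, if_neg (by omega), e]

theorem nm_inj {r : ℕ} (hr : 0 < r) (σ σ' : Equiv.Perm (Fin r)) :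
    ∀ i < 2 * r, ∀ j < 2 * r, nm hr σ σ' i = nm hr σ σ' j → i = j := by
  intro i hi j hj h
  rcases Nat.lt_or_ge i r with h1 | h1 <;> rcases Nat.lt_or_ge j r with h2 | h2
  · rw [nm_left hr σ σ' h1, nm_left hr σ σ' h2] at h
    simpa using h
  · obtain ⟨j, rfl⟩ := Nat.exists_eq_add_of_le h2
    rw [nm_left hr σ σ' h1, nm_right hr σ σ' (show j < r by omega)] at h
    simp at h
  · obtain ⟨i, rfl⟩ := Nat.exists_eq_add_of_le h1
    rw [nm_left hr σ σ' h2, nm_right hr σ σ' (show i < r by omega)] at h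
    simp at h
  · obtain ⟨i, rfl⟩ := Nat.exists_eq_add_of_le h1
    obtain ⟨j, rfl⟩ := Nat.exists_eq_add_of_le h2
    rw [nm_right hr σ σ' (show i < r by omega), nm_right hr σ σ' (show j < r by omega)] at h
    have : i = j := by simpa using h
    rw [this]

theorem image_nm_left {r : ℕ} (hr : 0 < r) (σ σ' : Equiv.Perm (Fin r)) {k : ℕ} (hk : k ≤ r) :
    (Finset.range k).image (nm hr σ σ') = firstL σ k := by
  ext t
  rw [Finset.mem_image, mem_firstL]
  constructor
  · rintro ⟨n, hn, rfl⟩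
    rw [Finset.mem_range] at hn
    exact ⟨⟨n, by omega⟩, hn, nm_left hr σ σ' (by omega)⟩
  · rintro ⟨j, hj, rfl⟩
    exact ⟨j.val, Finset.mem_range.mpr hj, nm_left hr σ σ' j.isLt⟩

theorem image_nm_right {r : ℕ} (hr : 0 < r) (σ σ' : Equiv.Perm (Fin r)) {k : ℕ} (hk : k ≤ r) :
    ((Finset.range k).image fun i => nm hr σ σ' (r + i)) = firstR σ' k := by
  ext t
  rw [Finset.mem_image, mem_firstR]
  constructor
  · rintro ⟨n, hn, rfl⟩
    rw [Finset.mem_range] at hn
    exact ⟨⟨n, by omega⟩, hn, nm_right hr σ σ' (by omega)⟩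
  · rintro ⟨j, hj, rfl⟩
    exact ⟨j.val, Finset.mem_range.mpr hj, nm_right hr σ σ' j.isLt⟩

theorem firstL_full {r : ℕ} (σ : Equiv.Perm (Fin r)) : firstL σ r = B₀ r := by
  refine Finset.eq_of_subset_of_card_le (firstL_sub _ _) ?_
  rw [card_B₀, card_firstL _ le_rfl]

theorem firstR_full {r : ℕ} (σ : Equiv.Perm (Fin r)) : firstR σ r = B₁ r := by
  refine Finset.eq_of_subset_of_card_le (firstR_sub _ _) ?_
  rw [card_B₁, card_firstR _ le_rfl]

/-- A chain of length `r - 1`, if the problem with the given good levels has no solution. -/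
theorem exists_gch {α : Type*} {M : Matroid α} {r : ℕ} (hr : 0 < r) {b b' : Fin r → α}
    (hb : Function.Injective b) (hb' : Function.Injective b')
    (hB : M.IsBase (Set.range b)) (hB' : M.IsBase (Set.range b')) (m0 m1 : ℕ)
    (σ σ' : Equiv.Perm (Fin r))
    (h0 : ∀ i < r, m0.testBit i = true → ∀ j : Fin (r + r), j.val = i + 1 →
      M.IsBase (block (b ∘ σ) (b' ∘ σ') j))
    (h1 : ∀ i < r, m1.testBit i = true → ∀ j : Fin (r + r), j.val = r + i + 1 →
      M.IsBase (block (b ∘ σ) (b' ∘ σ') j))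
    (bad : ∀ c : Cx (Idx r), c.r = r → c.m0 = m0 → c.m1 = m1 → False) :
    ∃ X ⊆ B₀ r, ∃ V ⊆ B₁ r, GCh (BP M (Sum.elim b b')) (B₀ r) (B₁ r) (r - 1) X V := by
  by_contra hcon
  push Not at hcon
  have hA := base_B₀ (b' := b') hb hB
  have hA' := base_B₁ (b := b) hb' hB'
  have e0 : (Finset.range r).image (nm hr σ σ') = B₀ r := by
    rw [image_nm_left hr σ σ' le_rfl, firstL_full]
  have e1 : ((Finset.range r).image fun i => nm hr σ σ' (r + i)) = B₁ r := by
    rw [image_nm_right hr σ σ' le_rfl, firstR_full]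
  refine bad ⟨r, m0, m1, nm hr σ σ', BP M (Sum.elim b b'), nm_inj hr σ σ', ?_, ?_, ?_, ?_, ?_, ?_⟩
    rfl rfl rfl
  · intro S T hS hT x hx hxT
    obtain ⟨e, he, heS, -, h1⟩ := symExch_BP M (Sum.elim b b') T S hT hS x hx hxT
    exact ⟨e, he, heS, h1⟩
  · rw [e0]; exact hA
  · rw [e1]; exact hA'
  · intro i hi hm
    rw [e0, image_nm_left hr σ σ' (show i + 1 ≤ r by omega),
      image_nm_right hr σ σ' (show i + 1 ≤ r by omega)]
    rcases Nat.lt_or_ge (i + 1) r with h | h
    · exact bp_lt hb hB σ σ' ⟨i + 1, by omega⟩ h (h0 i hi hm _ rfl)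
    · have : i + 1 = r := by omega
      rw [this, firstL_full, firstR_full, Finset.sdiff_self, Finset.empty_union]
      exact hA'
  · intro i hi hm
    rw [e1, image_nm_left hr σ σ' (show i + 1 ≤ r by omega),
      image_nm_right hr σ σ' (show i + 1 ≤ r by omega)]
    rcases Nat.lt_or_ge (i + 1) r with h | h
    · have := bp_ge hb hB σ σ' ⟨r + i + 1, by omega⟩ (by change r ≤ r + i + 1; omega)
        (h1 i hi hm _ rfl)
      have e : (⟨r + i + 1, by omega⟩ : Fin (r + r)).val - r = i + 1 := by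
        change r + i + 1 - r = i + 1
        omega
      rw [e] at this
      exact this
    · have : i + 1 = r := by omega
      rw [this, firstL_full, firstR_full, Finset.sdiff_self, Finset.empty_union]
      exact hA
  · intro i hi j hj m hm
    rw [e0, e1, nm_left hr σ σ' hi, nm_right hr σ σ' hj] at hm
    have h2 := (GCh.card _ _ _ hm).1
    rw [Finset.card_erase_of_mem ((mem_B₀ _).mpr ⟨_, rfl⟩), card_B₀] at h2
    subst h2
    exact hcon _ (Finset.erase_subset _ _) _ (Finset.erase_subset _ _) hm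

/-- from a chain of length `r - 1` to orderings -/
theorem orderings {α : Type*} {M : Matroid α} {r : ℕ} (hr : 0 < r) {b b' : Fin r → α}
    (hb : Function.Injective b) (hb' : Function.Injective b')
    (hB : M.IsBase (Set.range b)) (hB' : M.IsBase (Set.range b'))
    (h : ∃ X ⊆ B₀ r, ∃ V ⊆ B₁ r, GCh (BP M (Sum.elim b b')) (B₀ r) (B₁ r) (r - 1) X V) :
    ∃ σ σ' : Equiv.Perm (Fin r), ∀ i : Fin (r + r), M.IsBase (block (b ∘ σ) (b' ∘ σ') i) := by
  obtain ⟨X, hX, V, hV, hc⟩ := h
  have hA := base_B₀ (b' := b') hb hB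
  have hA' := base_B₁ (b := b) hb' hB'
  have h0 : Good (BP M (Sum.elim b b')) (B₀ r) (B₁ r) ∅ ∅ := by
    constructor
    · simpa using hA
    · simpa using hA'
  obtain ⟨x, y, hxi, hyi, -, -, hm⟩ := GCh.seq h0 (r - 1) X V hX hV hc
  have hinj : ∀ z : Fin (r - 1) → Fin r, Function.Injective z →
      Function.Injective (Sum.elim z (Fin.elim0 : Fin 0 → Fin r)) := by
    intro z hz
    exact hz.sumElim (fun i => i.elim0) (fun _ j => j.elim0)
  obtain ⟨σ, σ', -, -, hblocks⟩ := orderings_of_chains (k := r - 1) (l := 0) (by omega) (M := M)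
    (b := b) (b' := b') (x := Sum.elim x Fin.elim0) (y := Sum.elim y Fin.elim0)
    (hinj x hxi) (hinj y hyi) (fun m hmk => hm m hmk) (fun m hmk hm0 => by omega)
  refine ⟨σ, σ', fun i => hblocks i (Or.inl ?_)⟩
  have := Nat.mod_lt i.val hr
  omega

/-- Orderings with the blocks which start in the first basis, and those at the levels
`1, 2, r - 2, r - 1`. -/
theorem start {α : Type*} (M : Matroid α) {r : ℕ} (hr : 6 ≤ r) (b b' : Fin r → α)
    (hb : Function.Injective b) (hb' : Function.Injective b')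
    (hB : M.IsBase (Set.range b)) (hB' : M.IsBase (Set.range b')) :
    ∃ σ σ' : Equiv.Perm (Fin r), ∀ i : Fin (r + r),
      (i.val ≤ r ∨ i.val % r = 0 ∨ i.val % r = 1 ∨ i.val % r = 2 ∨ i.val % r = r - 2 ∨
        i.val % r = r - 1) → M.IsBase (block (b ∘ σ) (b' ∘ σ') i) := by
  obtain ⟨τ, τ', hτ⟩ := main6 M hr b b' hb hb' hB hB'
  have hb1 : Function.Injective (b ∘ τ) := hb.comp τ.injective
  have hB1 : M.IsBase (Set.range (b ∘ τ)) := by
    rw [τ.surjective.range_comp]
    exact hB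
  have hB1' : M.IsBase (Set.range (b' ∘ τ')) := by
    rw [τ'.surjective.range_comp]
    exact hB'
  obtain ⟨σ, σ', h1, -, h3⟩ := Pool.Agent.Near48.near_refine M (b ∘ τ) (b' ∘ τ') hb1 hB1 hB1'
  refine ⟨τ * σ, τ' * σ', fun i hi => ?_⟩
  rcases hi with hi | hi
  · exact h1 i hi
  · exact h3 (i.val % r) (fun j hj => hτ j (by rw [hj]; exact hi)) i rfl

/-- **Gabow's conjecture in rank six**, from the refutation of the problem with the good levels
`1, ..., 6` for the first and `1, 2, 4, 5` for the second basis. -/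
theorem gabow_six {α : Type*} (M : Matroid α) (b b' : Fin 6 → α)
    (hb : Function.Injective b) (hb' : Function.Injective b')
    (hB : M.IsBase (Set.range b)) (hB' : M.IsBase (Set.range b'))
    (bad : ∀ c : Cx (Idx 6), c.r = 6 → c.m0 = 63 → c.m1 = 27 → False) :
    ∃ σ σ' : Equiv.Perm (Fin 6), ∀ i : Fin (6 + 6), M.IsBase (block (b ∘ σ) (b' ∘ σ') i) := by
  obtain ⟨σ, σ', h⟩ := start M le_rfl b b' hb hb' hB hB'
  refine orderings (by norm_num) hb hb' hB hB' (exists_gch (by norm_num) hb hb' hB hB' 63 27 σ σ'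
    ?_ ?_ bad)
  · intro i hi _ j hj
    exact h j (Or.inl (by omega))
  · intro i hi hm j hj
    refine h j (Or.inr ?_)
    rw [hj]
    interval_cases i
    · simp
    · simp
    · simp [Nat.testBit] at hm
    · simp
    · simp
    · simp [Nat.testBit] at hm

/-- **Gabow's conjecture in rank at most six**, from the refutation. -/
theorem gabow_le_six_of {α : Type*} (M : Matroid α) {r : ℕ} (hr : r ≤ 6) (b b' : Fin r → α)
    (hb : Function.Injective b) (hb' : Function.Injective b')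
    (hB : M.IsBase (Set.range b)) (hB' : M.IsBase (Set.range b'))
    (bad : ∀ c : Cx (Idx 6), c.r = 6 → c.m0 = 63 → c.m1 = 27 → False) :
    ∃ σ σ' : Equiv.Perm (Fin r), ∀ i : Fin (r + r), M.IsBase (block (b ∘ σ) (b' ∘ σ') i) := by
  rcases Nat.lt_or_ge r 6 with h | h
  · exact gabow_le_five M (by omega) b b' hb hb' hB hB'
  · obtain rfl : r = 6 := by omega
    exact gabow_six M b b' hb hb' hB hB' bad

end Pool.Agent.Gab6_h87
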