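import Pool.Agent.Gab6_h87.G6
import Pool.Agent.Gab6_h87.Orient

/-!
# Rank at most six
-/

set_option autoImplicit false

namespace Pool.Agent.Gab6_h87

open Pool.Agent.Gabow87

/-- **Gabow's conjecture in rank at most six.** -/
theorem gabow_le_six {α : Type*} (M : Matroid α) {r : ℕ} (hr : r ≤ 6) (b b' : Fin r → α)
    (hb : Function.Injective b) (hb' : Function.Injective b')
    (hB : M.IsBase (Set.range b)) (hB' : M.IsBase (Set.range b')) :
    ∃ σ σ' : Equiv.Perm (Fin r), ∀ i : Fin (r + r), M.IsBase (block (b ∘ σ) (b' ∘ σ') i) :=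
  gabow_le_six_of M hr b b' hb hb' hB hB' fun c hr h0 h1 => G6.bad c hr h0 h1

end Pool.Agent.Gab6_h87
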